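import Pool.Agent.Y208.LQ.Stm

/-!
# LQ-STK (helper574): the Steinberg Lie algebra `st_5(R)` is `gl_5(R)` when the first cyclic homology
of the perfect algebra `R` vanishes
-/

set_option autoImplicit false

namespace Pool.Agent.Y574.LQ

open Y208.LQ

attribute [local instance 100] LieRing.ofAssociativeRing

section steinberg

variable {F R g : Type} [Field F] [Ring R] [Algebra F R] [LieRing g] [LieAlgebra F g]

/-- Steinberg relations -/
structure St (E : Fin 5 → Fin 5 → R →ₗ[F] g) : Prop where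
  s1 : ∀ i j k, i ≠ j → j ≠ k → i ≠ k → ∀ a b, ⁅E i j a, E j k b⁆ = E i k (a * b)
  s0 : ∀ i j k l, i ≠ j → k ≠ l → j ≠ k → i ≠ l → ∀ a b, ⁅E i j a, E k l b⁆ = 0

variable {E : Fin 5 → Fin 5 → R →ₗ[F] g}

theorem St.s1' (h : St E) {i j k : Fin 5} (hij : i ≠ j) (hki : k ≠ i) (hkj : k ≠ j) (a c : R) :
    ⁅E i j a, E k i c⁆ = -E k j (c * a) := by
  rw [← lie_skew, h.s1 k i j hki hij hkj]

/-- the bilinear map `[E i j a, E j i b]` -/
def HH (E : Fin 5 → Fin 5 → R →ₗ[F] g) (i j : Fin 5) : R →ₗ[F] R →ₗ[F] g :=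
  LinearMap.mk₂ F (fun a b => ⁅E i j a, E j i b⁆)
    (fun a a' b => by rw [map_add, add_lie])
    (fun c a b => by rw [map_smul, smul_lie])
    (fun a b b' => by rw [map_add, lie_add])
    (fun c a b => by rw [map_smul, lie_smul])

theorem HH_apply (i j : Fin 5) (a b : R) : HH E i j a b = ⁅E i j a, E j i b⁆ := rfl

/-- (1) -/
theorem St.h1 (h : St E) {i j k : Fin 5} (hij : i ≠ j) (hik : i ≠ k) (hjk : j ≠ k) (a b c : R) :
    HH E i j (a * b) c = HH E i k a (b * c) + HH E k j b (c * a) := by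
  simp only [HH_apply]
  rw [← h.s1 i k j hik hjk.symm hij a b, lie_lie, h.s1 k j i hjk.symm hij.symm hik.symm b c,
    h.s1' hik hij.symm hjk a c, lie_neg, sub_neg_eq_add]

theorem St.h2 (h : St E) {i j k : Fin 5} (hij : i ≠ j) (hik : i ≠ k) (hjk : j ≠ k) (a c : R) :
    HH E i j a c = HH E i k a c + HH E k j 1 (c * a) := by
  have := h.h1 hij hik hjk a 1 c
  rwa [mul_one, one_mul] at this

theorem St.h2' (h : St E) {i j k : Fin 5} (hij : i ≠ j) (hik : i ≠ k) (hjk : j ≠ k) (b c : R) :
    HH E i j b c = HH E i k 1 (b * c) + HH E k j b c := by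
  have := h.h1 hij hik hjk 1 b c
  rwa [one_mul, mul_one] at this

/-- the bilinear map `⟨a, b⟩_i`, computed with `j` -/
def br (E : Fin 5 → Fin 5 → R →ₗ[F] g) (i j : Fin 5) : R →ₗ[F] R →ₗ[F] g :=
  LinearMap.mk₂ F (fun a b => HH E i j a b - HH E i j 1 (b * a))
    (fun a a' b => by rw [map_add, LinearMap.add_apply, mul_add, map_add]; abel)
    (fun c a b => by
      rw [map_smul, LinearMap.smul_apply, mul_smul_comm, map_smul, smul_sub])
    (fun a b b' => by rw [map_add, add_mul, map_add]; abel)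
    (fun c a b => by rw [map_smul, smul_mul_assoc, map_smul, smul_sub])

theorem br_apply (i j : Fin 5) (a b : R) :
    br E i j a b = HH E i j a b - HH E i j 1 (b * a) := rfl

/-- (3) -/
theorem St.h3 (h : St E) {i j k : Fin 5} (hij : i ≠ j) (hik : i ≠ k) (a b : R) :
    br E i j a b = br E i k a b := by
  by_cases hjk : j = k
  · rw [hjk]
  rw [br_apply, br_apply, h.h2 hij hik hjk a b, h.h2 hij hik hjk 1 (b * a), mul_one]
  abel

/-- (4) -/
theorem St.h4 (h : St E) {i j k l : Fin 5} (hij : i ≠ j) (hik : i ≠ k) (hkl : k ≠ l) (b c : R) :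
    br E i j b c = br E k l b c + HH E i k 1 (b * c - c * b) := by
  have hm : ∀ i k : Fin 5, ∃ m : Fin 5, i ≠ m ∧ k ≠ m := by decide
  obtain ⟨m, hmi, hmk⟩ := hm i k
  rw [h.h3 hij hmi, h.h3 hkl hmk, br_apply, br_apply, h.h2' hmi hik hmk.symm b c,
    h.h2' hmi hik hmk.symm 1 (c * b), one_mul, map_sub]
  abel

/-- (5) -/
theorem St.h5 (h : St E) {i j : Fin 5} (hij : i ≠ j) (a b c : R) :
    br E i j (a * b) c = br E i j a (b * c) + br E i j b (c * a) := by
  have hm : ∀ i k : Fin 5, ∃ m : Fin 5, i ≠ m ∧ k ≠ m := by decide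
  obtain ⟨k, hik, hjk⟩ := hm i j
  rw [h.h3 hij hik a (b * c), h.h4 hij hik hjk.symm b (c * a), br_apply, br_apply, br_apply,
    h.h1 hij hik hjk a b c, h.h2' hij hik hjk 1 (c * (a * b)), one_mul, map_sub]
  simp only [mul_assoc]
  abel

theorem br_one (i j : Fin 5) (c : R) : br E i j 1 c = 0 := by
  rw [br_apply, mul_one, sub_self]

/-- a linear map that vanishes at all commutators is zero -/
theorem lin_zero (hp : Submodule.span F {z : R | ∃ a b : R, z = a * b - b * a} = ⊤)
    {M : Type} [AddCommGroup M] [Module F M] (φ : R →ₗ[F] M)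
    (hφ : ∀ a b, φ (a * b - b * a) = 0) : ∀ r, φ r = 0 := by
  intro r
  have hr : r ∈ Submodule.span F {z : R | ∃ a b : R, z = a * b - b * a} := by
    rw [hp]
    trivial
  have hle : Submodule.span F {z : R | ∃ a b : R, z = a * b - b * a} ≤ LinearMap.ker φ := by
    rw [Submodule.span_le]
    rintro _ ⟨a, b, rfl⟩
    exact hφ a b
  exact hle hr

/-- (6) -/
theorem St.h6 (h : St E) (hp : Submodule.span F {z : R | ∃ a b : R, z = a * b - b * a} = ⊤)
    {i j : Fin 5} (hij : i ≠ j) (a b : R) : br E i j a b = -br E i j b a := by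
  have h1 : ∀ a b : R, br E i j (a * b) 1 = br E i j a b + br E i j b a := by
    intro a b
    have := h.h5 hij a b 1
    rwa [mul_one, one_mul] at this
  have h2 : ∀ r, (br E i j).flip 1 r = 0 := by
    refine lin_zero hp _ fun a b => ?_
    rw [LinearMap.flip_apply, map_sub, LinearMap.sub_apply, h1, h1]
    abel
  have h3 := h2 (a * b)
  rw [LinearMap.flip_apply, h1] at h3
  exact eq_neg_of_add_eq_zero_left h3

/-- (7) -/
theorem St.h7 (h : St E) (hC : Cyc F R) : ∃ D : Fin 5 → R →ₗ[F] g,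
    (∀ i j, i ≠ j → ∀ a b, br E i j a b = D i (a * b - b * a)) ∧
    ∀ i j, i ≠ j → ∀ a b, HH E i j a b = D i (a * b) - D j (b * a) := by
  have hnx : ∀ i : Fin 5, ∃ j, i ≠ j := by decide
  choose nx hnx using hnx
  have h1 : ∀ i, ∃ g' : R →ₗ[F] g, ∀ a b, br E i (nx i) a b = g' (a * b - b * a) := fun i =>
    hC.2 g (br E i (nx i)) (fun a b => h.h6 hC.1 (hnx i) a b) (fun a b c => h.h5 (hnx i) a b c)
  choose D hD using h1
  have hD' : ∀ i j, i ≠ j → ∀ a b, br E i j a b = D i (a * b - b * a) := by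
    intro i j hij a b
    rw [h.h3 hij (hnx i), hD]
  have h2 : ∀ i j, i ≠ j → ∀ r, HH E i j 1 r = D i r - D j r := by
    intro i j hij r
    have h3 := lin_zero hC.1 (HH E i j 1 - (D i - D j)) (fun a b => by
      rw [LinearMap.sub_apply, LinearMap.sub_apply, ← hD i, ← hD j,
        h.h4 (hnx i) hij (hnx j) a b]
      abel) r
    rw [LinearMap.sub_apply, LinearMap.sub_apply] at h3
    exact sub_eq_zero.1 h3
  refine ⟨D, hD', fun i j hij a b => ?_⟩
  have h3 : HH E i j a b = br E i j a b + HH E i j 1 (b * a) := by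
    rw [br_apply]
    abel
  rw [h3, hD' i j hij, h2 i j hij, map_sub]
  abel

/-- (8) -/
theorem St.h8a (h : St E) {k l j : Fin 5} (hkl : k ≠ l) (hkj : k ≠ j) (hlj : l ≠ j) (c d a : R) :
    ⁅HH E k l c d, E k j a⁆ = E k j (c * (d * a)) := by
  rw [HH_apply, lie_lie, h.s1 l k j hkl.symm hkj hlj, h.s1 k l j hkl hlj hkj,
    h.s0 k l k j hkl hkj hkl.symm hkj, lie_zero, sub_zero]

theorem St.h8b (h : St E) {k l i : Fin 5} (hkl : k ≠ l) (hik : i ≠ k) (hil : i ≠ l) (c d a : R) :
    ⁅HH E k l c d, E i k a⁆ = -E i k (a * c * d) := by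
  rw [HH_apply, lie_lie, h.s0 l k i k hkl.symm hik hik.symm hkl.symm, lie_zero,
    h.s1' hkl hik hil, lie_neg, sub_neg_eq_add, zero_add, h.s1' hkl.symm hil hik]

theorem St.h8c (h : St E) {k l i j : Fin 5} (hkl : k ≠ l) (hij : i ≠ j) (hki : k ≠ i)
    (hkj : k ≠ j) (hli : l ≠ i) (hlj : l ≠ j) (c d a : R) :
    ⁅HH E k l c d, E i j a⁆ = 0 := by
  rw [HH_apply, lie_lie, h.s0 l k i j hkl.symm hij hki hlj, lie_zero,
    h.s0 k l i j hkl hij hli hkj, lie_zero, sub_zero]

/-- all matrix units -/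
def TT (E : Fin 5 → Fin 5 → R →ₗ[F] g) (D : Fin 5 → R →ₗ[F] g) (i j : Fin 5) : R →ₗ[F] g :=
  if i = j then D i else E i j

theorem TT_diag (D : Fin 5 → R →ₗ[F] g) (i : Fin 5) : TT E D i i = D i := if_pos rfl

theorem TT_off (D : Fin 5 → R →ₗ[F] g) {i j : Fin 5} (hij : i ≠ j) : TT E D i j = E i j :=
  if_neg hij

/-- the span -/
def WW (E : Fin 5 → Fin 5 → R →ₗ[F] g) (D : Fin 5 → R →ₗ[F] g) : Submodule F g :=
  Submodule.span F {x | ∃ i j a, x = TT E D i j a}

theorem T_mem (D : Fin 5 → R →ₗ[F] g) (i j : Fin 5) (a : R) : TT E D i j a ∈ WW E D :=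
  Submodule.subset_span ⟨i, j, a, rfl⟩

theorem E_mem (D : Fin 5 → R →ₗ[F] g) {i j : Fin 5} (hij : i ≠ j) (a : R) : E i j a ∈ WW E D := by
  rw [← TT_off (E := E) D hij]
  exact T_mem D i j a

theorem D_mem (D : Fin 5 → R →ₗ[F] g) (i : Fin 5) (a : R) : D i a ∈ WW E D := by
  rw [← TT_diag (E := E) D i]
  exact T_mem D i i a

/-- (9) -/
theorem St.h9 (h : St E) (hp : Submodule.span F {z : R | ∃ a b : R, z = a * b - b * a} = ⊤)
    {D : Fin 5 → R →ₗ[F] g}
    (hD : ∀ i j, i ≠ j → ∀ a b, br E i j a b = D i (a * b - b * a))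
    (hH : ∀ i j, i ≠ j → ∀ a b, HH E i j a b = D i (a * b) - D j (b * a))
    {i j : Fin 5} (hij : i ≠ j) (a : R) : ∀ x ∈ WW E D, ⁅E i j a, x⁆ ∈ WW E D := by
  intro x hx
  induction hx using Submodule.span_induction with
  | zero => rw [lie_zero]; exact zero_mem _
  | add x y _ _ hx hy => rw [lie_add]; exact add_mem hx hy
  | smul c x _ hx => rw [lie_smul]; exact Submodule.smul_mem _ _ hx
  | mem x hx =>
    obtain ⟨k, l, b, rfl⟩ := hx
    by_cases hkl : k = l
    · subst hkl
      rw [TT_diag]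
      have hb : b ∈ Submodule.span F {z : R | ∃ a b : R, z = a * b - b * a} := by
        rw [hp]
        trivial
      obtain ⟨l, hkl, hil, hjl⟩ : ∃ l : Fin 5, k ≠ l ∧ i ≠ l ∧ j ≠ l := by
        clear hH hD hp h hb
        revert i j k
        decide
      induction hb using Submodule.span_induction with
      | zero => rw [map_zero, lie_zero]; exact zero_mem _
      | add x y _ _ hx hy => rw [map_add, lie_add]; exact add_mem hx hy
      | smul c x _ hx => rw [map_smul, lie_smul]; exact Submodule.smul_mem _ _ hx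
      | mem z hz =>
        obtain ⟨c, d, rfl⟩ := hz
        rw [← hD k l hkl, br_apply, lie_sub, ← lie_skew _ (HH E k l c d),
          ← lie_skew _ (HH E k l 1 (d * c))]
        have key : ∀ c d : R, ⁅HH E k l c d, E i j a⁆ ∈ WW E D := by
          intro c d
          by_cases hki : k = i
          · subst hki
            rw [h.h8a hkl hij hjl.symm]
            exact E_mem D hij _
          · by_cases hkj : k = j
            · subst hkj
              rw [h.h8b hkl hij hil]
              exact neg_mem (E_mem D hij _)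
            · rw [h.h8c hkl hij hki hkj hil.symm hjl.symm]
              exact zero_mem _
        exact sub_mem (neg_mem (key _ _)) (neg_mem (key _ _))
    · rw [TT_off D hkl]
      by_cases hjk : j = k
      · subst hjk
        by_cases hil : i = l
        · subst hil
          have := hH i j hij a b
          rw [HH_apply] at this
          rw [this]
          exact sub_mem (D_mem D _ _) (D_mem D _ _)
        · rw [h.s1 i j l hij hkl hil]
          exact E_mem D hil _
      · by_cases hil : i = l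
        · subst hil
          rw [h.s1' hij hkl (Ne.symm hjk)]
          exact neg_mem (E_mem D (Ne.symm hjk) _)
        · rw [h.s0 i j k l hij hkl hjk hil]
          exact zero_mem _

theorem St.top (h : St E) (hp : Submodule.span F {z : R | ∃ a b : R, z = a * b - b * a} = ⊤)
    {D : Fin 5 → R →ₗ[F] g}
    (hD : ∀ i j, i ≠ j → ∀ a b, br E i j a b = D i (a * b - b * a))
    (hH : ∀ i j, i ≠ j → ∀ a b, HH E i j a b = D i (a * b) - D j (b * a))
    (hgen : LieSubalgebra.lieSpan F g {x | ∃ i j, i ≠ j ∧ ∃ a, x = E i j a} = ⊤) :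
    WW E D = ⊤ := by
  -- the normaliser
  let Nz : LieSubalgebra F g :=
    { carrier := {x | ∀ w ∈ WW E D, ⁅x, w⁆ ∈ WW E D}
      add_mem' := fun {x y} hx hy w hw => by rw [add_lie]; exact add_mem (hx w hw) (hy w hw)
      zero_mem' := fun w _ => by rw [zero_lie]; exact zero_mem _
      smul_mem' := fun c x hx w hw => by rw [smul_lie]; exact Submodule.smul_mem _ _ (hx w hw)
      lie_mem' := fun {x y} hx hy w hw => by
        rw [lie_lie]; exact sub_mem (hx _ (hy w hw)) (hy _ (hx w hw)) }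
  have h1 : LieSubalgebra.lieSpan F g {x | ∃ i j, i ≠ j ∧ ∃ a, x = E i j a} ≤ Nz := by
    rw [LieSubalgebra.lieSpan_le]
    rintro _ ⟨i, j, hij, a, rfl⟩ w hw
    exact h.h9 hp hD hH hij a w hw
  have h2 : ∀ x : g, ∀ w ∈ WW E D, ⁅x, w⁆ ∈ WW E D := by
    intro x
    have h3 : x ∈ LieSubalgebra.lieSpan F g {x | ∃ i j, i ≠ j ∧ ∃ a, x = E i j a} := by
      rw [hgen]
      trivial
    exact h1 h3
  let Wl : LieSubalgebra F g := { WW E D with lie_mem' := fun {x y} _ hy => h2 x y hy }
  have h3 : LieSubalgebra.lieSpan F g {x | ∃ i j, i ≠ j ∧ ∃ a, x = E i j a} ≤ Wl := by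
    rw [LieSubalgebra.lieSpan_le]
    rintro _ ⟨i, j, hij, a, rfl⟩
    exact E_mem D hij a
  rw [eq_top_iff]
  intro x _
  have h4 : x ∈ LieSubalgebra.lieSpan F g {x | ∃ i j, i ≠ j ∧ ∃ a, x = E i j a} := by
    rw [hgen]
    trivial
  exact h3 h4

end steinberg

/-- STK -/
theorem t_STK : S_STK := by
  intro F R g _ _ _ _ _ E hC hs1 hs0 hgen π hπ
  have h : St E := ⟨hs1, hs0⟩
  obtain ⟨D, hD, hH⟩ := h.h7 hC
  have htop := h.top hC.1 hD hH hgen
  have hπD : ∀ i r, π (D i r) = Matrix.single i i r := by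
    intro i r
    obtain ⟨j, hij⟩ : ∃ j : Fin 5, i ≠ j := by
      clear hπ hD hH
      revert i
      decide
    have h1 := lin_zero hC.1 ((π : g →ₗ[F] Matrix (Fin 5) (Fin 5) R) ∘ₗ D i -
      Matrix.singleLinearMap F i i) (fun a b => by
        have h2 : ∀ a b : R, π (HH E i j a b) =
            Matrix.single i i (a * b) - Matrix.single j j (b * a) := by
          intro a b
          rw [HH_apply, LieHom.map_lie, hπ i j hij, hπ j i hij.symm,
            LieRing.of_associative_ring_bracket, Matrix.single_mul_single_same,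
            Matrix.single_mul_single_same]
        rw [LinearMap.sub_apply, LinearMap.comp_apply, ← hD i j hij, br_apply]
        have h3 : Matrix.single i i (a * b - b * a) =
            Matrix.single i i (a * b) - Matrix.single i i (b * a) :=
          map_sub (Matrix.singleLinearMap F i i) _ _
        show π (HH E i j a b - HH E i j 1 (b * a)) - Matrix.single i i (a * b - b * a) = 0
        rw [map_sub, h2, h2, one_mul, mul_one, h3]
        abel) r
    rw [LinearMap.sub_apply] at h1
    exact sub_eq_zero.1 h1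
  have hπT : ∀ i j a, π (TT E D i j a) = Matrix.single i j a := by
    intro i j a
    by_cases hij : i = j
    · subst hij
      rw [TT_diag, hπD]
    · rw [TT_off D hij, hπ i j hij]
  let σ : Matrix (Fin 5) (Fin 5) R → g := fun X => ∑ i, ∑ j, TT E D i j (X i j)
  have hσ : ∀ x : g, σ (π x) = x := by
    intro x
    have hx : x ∈ WW E D := by rw [htop]; trivial
    induction hx using Submodule.span_induction with
    | zero =>
      simp [σ]
    | add x y _ _ hx hy =>
      conv_rhs => rw [← hx, ← hy]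
      simp only [σ, map_add, Matrix.add_apply, Finset.sum_add_distrib]
    | smul c x _ hx =>
      conv_rhs => rw [← hx]
      simp only [σ, map_smul, Matrix.smul_apply, Finset.smul_sum]
    | mem x hx =>
      obtain ⟨k, l, b, rfl⟩ := hx
      rw [hπT]
      simp only [σ]
      rw [Finset.sum_eq_single k, Finset.sum_eq_single l]
      · rw [Matrix.single_apply_same]
      · intro j _ hj
        rw [Matrix.single_apply_of_ne _ _ _ _ _ (by
          rintro ⟨_, h2⟩
          exact hj h2.symm), map_zero]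
      · intro h2
        exact absurd (Finset.mem_univ _) h2
      · intro i _ hi
        refine Finset.sum_eq_zero fun j _ => ?_
        rw [Matrix.single_apply_of_ne _ _ _ _ _ (by
          rintro ⟨h2, _⟩
          exact hi h2.symm), map_zero]
      · intro h2
        exact absurd (Finset.mem_univ _) h2
  constructor
  · intro x y hxy
    rw [← hσ x, ← hσ y, hxy]
  · intro X
    refine ⟨σ X, ?_⟩
    simp only [σ, map_sum, hπT]
    exact (Matrix.matrix_eq_sum_single X).symm

end Pool.Agent.Y574.LQ
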